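import Pool.Agent.W186.AI.Spec

set_option autoImplicit false

namespace Pool.Agent.W384.AI.RAN

open Complex Filter Topology Metric Set Pool.Agent.W186.AI
open scoped Real ContDiff

lemma ell_diff (hg : S_GAM) (hz : S_ZET) : DifferentiableOn ℂ ell {s : ℂ | 1 < s.re} :=
  hg.1.add hz.1

lemma ell_conj (hg : S_GAM) (hz : S_ZET) {s : ℂ} (hs : 1 < s.re) :
    ell ((starRingEnd ℂ) s) = (starRingEnd ℂ) (ell s) := by
  unfold ell
  rw [hg.2.2 s hs, hz.2.2.1 s hs, map_add]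

/-- the point `1/2 + a + i t` -/
noncomputable def m (q : ℝ × ℝ) : ℂ := 1 / 2 + (q.1 : ℂ) + I * (q.2 : ℂ)

lemma m_re (q : ℝ × ℝ) : (m q).re = 1 / 2 + q.1 := by
  unfold m
  simp

noncomputable def F (q : ℝ × ℝ) : ℝ := (ell (m q)).im

lemma GG_eq (hg : S_GAM) (hz : S_ZET) {a t : ℝ} (ha : 1 / 2 < a) :
    GG (a : ℂ) (t : ℂ) = ((F (a, t) : ℝ) : ℂ) := by
  have hre : 1 < (m (a, t)).re := by
    rw [m_re]
    dsimp only
    linarith
  have hc : (1 / 2 + (a : ℂ) - I * (t : ℂ)) = (starRingEnd ℂ) (m (a, t)) := by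
    unfold m
    simp [sub_eq_add_neg]
    exact (map_ofNat (starRingEnd ℂ) 2).symm
  have hI : (2 : ℂ) * I ≠ 0 := by simp
  unfold GG
  rw [hc, ell_conj hg hz hre]
  change (ell (m (a, t)) - _) / _ = _
  rw [Complex.sub_conj, div_eq_iff hI]
  unfold F
  push_cast
  ring

lemma contDiff_m : ContDiff ℝ ω m := by
  unfold m
  have h1 : ContDiff ℝ ω (fun x : ℝ => (x : ℂ)) := Complex.ofRealCLM.contDiff
  exact (contDiff_const.add (h1.comp contDiff_fst)).add
    (contDiff_const.mul (h1.comp contDiff_snd))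

lemma F_contDiff (hg : S_GAM) (hz : S_ZET) {p : ℝ × ℝ} (hp : 1 / 2 < p.1) :
    ContDiffAt ℝ ω F p := by
  have hre : m p ∈ {s : ℂ | 1 < s.re} := by
    simp only [mem_ofPred_eq, m_re]
    linarith
  have hop : IsOpen {s : ℂ | 1 < s.re} := isOpen_lt continuous_const Complex.continuous_re
  have h1 : AnalyticAt ℂ ell (m p) := (ell_diff hg hz).analyticAt (hop.mem_nhds hre)
  have h2 : ContDiffAt ℝ ω ell (m p) := (h1.restrictScalars (𝕜 := ℝ)).contDiffAt
  have h3 : ContDiffAt ℝ ω (fun q => ell (m q)) p := h2.comp p contDiff_m.contDiffAt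
  exact (Complex.imCLM.contDiff.contDiffAt).comp p h3

lemma F_deriv (hg : S_GAM) (hz : S_ZET) {p : ℝ × ℝ} (hp : 1 / 2 < p.1) :
    HasFDerivAt F ((deriv ell (m p)).im • ContinuousLinearMap.fst ℝ ℝ ℝ +
      (deriv ell (m p)).re • ContinuousLinearMap.snd ℝ ℝ ℝ) p := by
  have hre : m p ∈ {s : ℂ | 1 < s.re} := by
    simp only [mem_ofPred_eq, m_re]
    linarith
  have hop : IsOpen {s : ℂ | 1 < s.re} := isOpen_lt continuous_const Complex.continuous_re
  have h1 : HasDerivAt ell (deriv ell (m p)) (m p) :=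
    ((ell_diff hg hz).differentiableAt (hop.mem_nhds hre)).hasDerivAt
  have h2 := h1.hasFDerivAt.restrictScalars ℝ
  have h3 : HasFDerivAt m (Complex.ofRealCLM.comp (ContinuousLinearMap.fst ℝ ℝ ℝ) +
      I • Complex.ofRealCLM.comp (ContinuousLinearMap.snd ℝ ℝ ℝ)) p := by
    have e1 : HasFDerivAt (fun q : ℝ × ℝ => ((q.1 : ℝ) : ℂ))
        (Complex.ofRealCLM.comp (ContinuousLinearMap.fst ℝ ℝ ℝ)) p :=
      (Complex.ofRealCLM.hasFDerivAt).comp p hasFDerivAt_fst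
    have e2 : HasFDerivAt (fun q : ℝ × ℝ => ((q.2 : ℝ) : ℂ))
        (Complex.ofRealCLM.comp (ContinuousLinearMap.snd ℝ ℝ ℝ)) p :=
      (Complex.ofRealCLM.hasFDerivAt).comp p hasFDerivAt_snd
    exact (e1.const_add (1 / 2)).add (e2.const_smul I)
  have h4 := (Complex.imCLM.hasFDerivAt).comp p (h2.comp p h3)
  refine h4.congr_fderiv ?_
  ext <;> simp

theorem main (hg : S_GAM) (hz : S_ZET) (hm : S_MON) : S_RAN := by
  intro τ hτ n a0 ha0
  have ha : (1 : ℝ) / 2 < a0 := ha0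
  obtain ⟨ht0, hG0⟩ := hτ.1 n a0 ha
  set p : ℝ × ℝ := (a0, τ n a0) with hp
  have hpa : (1 : ℝ) / 2 < p.1 := ha
  have hF0 : F p = yy n := by
    rw [GG_eq hg hz ha] at hG0
    exact_mod_cast hG0
  set α : ℝ := (deriv ell (m p)).im
  set c : ℝ := (deriv ell (m p)).re with hc
  have hc0 : 0 < c := hm (m p) (by rw [m_re]; linarith)
  let A : ℝ × ℝ →L[ℝ] ℝ × ℝ := (ContinuousLinearMap.fst ℝ ℝ ℝ).prod
    (α • ContinuousLinearMap.fst ℝ ℝ ℝ + c • ContinuousLinearMap.snd ℝ ℝ ℝ)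
  let B : ℝ × ℝ →L[ℝ] ℝ × ℝ := (ContinuousLinearMap.fst ℝ ℝ ℝ).prod
    (c⁻¹ • (ContinuousLinearMap.snd ℝ ℝ ℝ - α • ContinuousLinearMap.fst ℝ ℝ ℝ))
  let Q : (ℝ × ℝ) ≃L[ℝ] (ℝ × ℝ) := ContinuousLinearEquiv.equivOfInverse A B
    (by
      rintro ⟨x, y⟩
      simp only [A, B, ContinuousLinearMap.prod_apply, ContinuousLinearMap.coe_fst',
        ContinuousLinearMap.add_apply, ContinuousLinearMap.smul_apply,
        ContinuousLinearMap.coe_snd', ContinuousLinearMap.sub_apply, smul_eq_mul, Prod.mk.injEq,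
        true_and]
      field_simp
      ring)
    (by
      rintro ⟨x, y⟩
      simp only [A, B, ContinuousLinearMap.prod_apply, ContinuousLinearMap.coe_fst',
        ContinuousLinearMap.add_apply, ContinuousLinearMap.smul_apply,
        ContinuousLinearMap.coe_snd', ContinuousLinearMap.sub_apply, smul_eq_mul, Prod.mk.injEq,
        true_and]
      field_simp
      ring)
  let Φ : ℝ × ℝ → ℝ × ℝ := fun q => (q.1, F q)
  have hΦ : ContDiffAt ℝ ω Φ p := contDiffAt_fst.prodMk (F_contDiff hg hz hpa)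
  have hΦ' : HasFDerivAt Φ (Q : ℝ × ℝ →L[ℝ] ℝ × ℝ) p :=
    hasFDerivAt_fst.prodMk (F_deriv hg hz hpa)
  have hne : (ω : WithTop ℕ∞) ≠ 0 := by simp
  have hΦp : Φ p = (a0, yy n) := by
    simp only [Φ, hF0]
    rfl
  let L := hΦ.localInverse hΦ' hne
  have hL : ContDiffAt ℝ ω L (a0, yy n) := by
    have := hΦ.to_localInverse hΦ' hne
    rw [hΦp] at this
    exact this
  have hLp : L (a0, yy n) = p := by
    have := hΦ.localInverse_apply_image hΦ' hne
    rw [hΦp] at this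
    exact this
  have hright : ∀ᶠ q in 𝓝 (a0, yy n), Φ (L q) = q := by
    have := (hΦ.hasStrictFDerivAt' hΦ' hne).eventually_right_inverse
    rw [hΦp] at this
    exact this
  have hpath : ContDiffAt ℝ ω (fun a : ℝ => (a, yy n)) a0 := contDiffAt_id.prodMk contDiffAt_const
  have hψ : ContDiffAt ℝ ω (fun a : ℝ => (L (a, yy n)).2) a0 :=
    contDiffAt_snd.comp a0 (hL.comp a0 hpath)
  have hψa : AnalyticAt ℝ (fun a : ℝ => (L (a, yy n)).2) a0 := hψ.analyticAt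
  have hcont : Tendsto (fun a : ℝ => (a, yy n)) (𝓝 a0) (𝓝 (a0, yy n)) := hpath.continuousAt
  have h1 := hcont.eventually hright
  have h2 : ∀ᶠ a in 𝓝 a0, 0 < (L (a, yy n)).2 := by
    have h := hψ.continuousAt
    refine h.eventually (lt_mem_nhds ?_)
    change 0 < (L (a0, yy n)).2
    rw [hLp]
    exact ht0
  have h3 : ∀ᶠ a in 𝓝 a0, (1 : ℝ) / 2 < a := lt_mem_nhds ha
  refine hψa.congr ?_
  filter_upwards [h1, h2, h3] with a e1 e2 e3
  have e4 : (L (a, yy n)).1 = a := congrArg Prod.fst e1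
  have e5 : F (L (a, yy n)) = yy n := congrArg Prod.snd e1
  refine hτ.2.1 n a _ e3 e2 ?_
  rw [GG_eq hg hz e3]
  have e6 : (a, (L (a, yy n)).2) = L (a, yy n) := Prod.ext e4.symm rfl
  rw [e6, e5]

end Pool.Agent.W384.AI.RAN
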